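import Pool.Agent.H474R4.LP.Main

set_option autoImplicit false

/-! # Prime-free stretches of almost all progressions modulo `q`, at the scale of the least prime

For all `C` and `ε > 0` there are `c > 0` and `J₀` such that for every `J ≥ J₀` and all large `q`:
given any `J` pairwise disjoint sets `A_i` of at most `C (φ(q)/q) log q` integers `0 ≤ k ≤ q ^ C`,
for all but at most `ε φ(q)` of the reduced residues `b` modulo `q`, at least `c J` of the sets
`A_i` are such that all the numbers `b + k q`, `k ∈ A_i`, are composite or `1`. -/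

open Finset

namespace Pool.Agent.Results.MP_458f0b_nt.AlmostAllClasses

open Classical in
theorem result : ∀ (C ε : ℝ), 0 < ε → ∃ c : ℝ, 0 < c ∧ ∃ J₀ : ℕ, ∀ J : ℕ, J₀ ≤ J →
    ∃ q₀ : ℕ, ∀ q : ℕ, q₀ ≤ q →
    ∀ A : Fin J → Finset ℕ, (∀ i j, i ≠ j → Disjoint (A i) (A j)) →
    (∀ i, ∀ k ∈ A i, (k : ℝ) ≤ (q : ℝ) ^ C) →
    (∀ i, ((A i).card : ℝ) ≤ C * ((q.totient : ℝ) / q * Real.log q)) →
    (((range q).filter (fun b : ℕ => b.Coprime q ∧
      (((univ : Finset (Fin J)).filter (fun i => ∀ k ∈ A i, ¬ (b + k * q).Prime)).card : ℝ) <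
        c * J)).card : ℝ) ≤ ε * q.totient :=
  Pool.Agent.H474R4.LP.lpDens

end Pool.Agent.Results.MP_458f0b_nt.AlmostAllClasses
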