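import Pool.Agent.H256R2.SC.Fin3

set_option autoImplicit false

/-! # The largest least prime in the residue classes modulo `d`, every modulus

`p(d) ≥ c φ(d) log d log log d` for all large `d`. -/

namespace Pool.Agent.Results.MP_458f0b_nt.EveryModulus

theorem result : ∃ c : ℝ, 0 < c ∧ ∃ d₀ : ℕ, ∀ d : ℕ, d₀ ≤ d →
    c * ((Nat.totient d : ℝ) * Real.log d * Real.log (Real.log d)) ≤
      ((((Finset.range d).filter (fun a => Nat.Coprime a d)).sup
        (fun a => sInf {p : ℕ | p.Prime ∧ p % d = a}) : ℕ) : ℝ) := by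
  obtain ⟨c, hc, d₀, h⟩ := Pool.Agent.H256R2.SC.least_prime_progression
  refine ⟨c, hc, max d₀ 2, fun d hd => ?_⟩
  have hd0 : d₀ ≤ d := (le_max_left _ _).trans hd
  have hd2 : 2 ≤ d := (le_max_right _ _).trans hd
  obtain ⟨a, ha1, ha2, ha3, ha4⟩ := h d hd0
  have hne : ({p : ℕ | p.Prime ∧ p % d = a}).Nonempty := by
    have hd' : d ≠ 0 := by omega
    haveI : NeZero d := ⟨hd'⟩
    have hu : IsUnit (a : ZMod d) := (ZMod.isUnit_iff_coprime a d).mpr ha3
    obtain ⟨p, -, hp, hpa⟩ := Nat.forall_exists_prime_gt_and_eq_mod hu 0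
    refine ⟨p, hp, ?_⟩
    have h1 := (ZMod.natCast_eq_natCast_iff' p a d).mp hpa
    rw [Nat.mod_eq_of_lt ha2] at h1
    exact h1
  have hmem := Nat.sInf_mem hne
  have h1 := ha4 _ hmem.1 hmem.2
  have h2 : sInf {p : ℕ | p.Prime ∧ p % d = a} ≤
      ((Finset.range d).filter (fun a => Nat.Coprime a d)).sup
        (fun a => sInf {p : ℕ | p.Prime ∧ p % d = a}) :=
    Finset.le_sup (f := fun a => sInf {p : ℕ | p.Prime ∧ p % d = a})
      (Finset.mem_filter.mpr ⟨Finset.mem_range.mpr ha2, ha3⟩)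
  have h3 : ((sInf {p : ℕ | p.Prime ∧ p % d = a} : ℕ) : ℝ) ≤
      ((((Finset.range d).filter (fun a => Nat.Coprime a d)).sup
        (fun a => sInf {p : ℕ | p.Prime ∧ p % d = a}) : ℕ) : ℝ) := by exact_mod_cast h2
  calc c * ((Nat.totient d : ℝ) * Real.log d * Real.log (Real.log d))
      = c * (Nat.totient d : ℝ) * Real.log d * Real.log (Real.log d) := by ring
    _ ≤ _ := h1.le
    _ ≤ _ := h3

end Pool.Agent.Results.MP_458f0b_nt.EveryModulus
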