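import Pool.Agent.H410R2.ENMain
import Pool.Agent.H474R2.LP.Final

set_option autoImplicit false

/-! # The distribution of the least primes in the progressions modulo d

For every `C` there is `c > 0` such that for ALL large `d` a proportion at least `c` of the
reduced residue classes modulo `d` contains no prime up to `C φ(d) log d`; more generally no
prime in `(M, M + C φ(d) log d]`, for every given `M ≤ d ^ C`. -/

namespace Pool.Agent.Results.MP_458f0b_nt.LeastPrimeDistribution

open Classical in
theorem result (C : ℝ) :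
    ∃ c : ℝ, 0 < c ∧ ∃ d₀ : ℕ, ∀ d : ℕ, d₀ ≤ d → ∀ M : ℕ, (M : ℝ) ≤ (d : ℝ) ^ C →
      c * (d.totient : ℝ) ≤ (((Finset.range d).filter (fun a : ℕ => a.Coprime d ∧
        ∀ p : ℕ, p.Prime → p % d = a → M < p →
          (M : ℝ) + C * (d.totient : ℝ) * Real.log d < p)).card : ℝ) :=
  Pool.Agent.H474R2.LP.leastPrimes_of Pool.Agent.H410R2.EN.coreW C

end Pool.Agent.Results.MP_458f0b_nt.LeastPrimeDistribution
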